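import Pool.Agent.Helper11.TW.Count

/-!
# Project TW: the count for twists from the abstract count, for arbitrary `S`, same exponent

The proof is that of `Helper11.TW.count_bound`; the hypothesis on `S` (a residue class, a density)
only enters through the abstract bound.
-/

namespace Pool.Agent.Helper43.TW

open Helper11.TW

private theorem decode_code : ∀ t, Count_decode (code t false) (code t true) = t := by decide

private theorem oth_iff : ∀ (t0 : Option (Fin 3)) (b : Bool) (t : Option (Fin 3)),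
    code t b ≠ code t0 b ↔ (t = Count_o1 t0 b ∨ t = Count_o2 t0 b) := by decide

private theorem oth_ne : ∀ (t0 : Option (Fin 3)) (b : Bool),
    Count_o1 t0 b ≠ Count_o2 t0 b ∧ Count_o1 t0 b ≠ t0 ∧ Count_o2 t0 b ≠ t0 := by decide

private theorem prime_of_good {d : ℤ} {B r : ℕ} (h : r ∈ good d B) : r.Prime :=
  Nat.prime_of_mem_primeFactors (Finset.mem_filter.1 h).1

private theorem dvd_of_good {d : ℤ} {B r : ℕ} (h : r ∈ good d B) : (r : ℤ) ∣ d :=
  Int.natCast_dvd.2 (Nat.dvd_of_mem_primeFactors (Finset.mem_filter.1 h).1)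

private theorem mem_of_dvd_part {α : Type} [DecidableEq α] {d : ℤ} {B : ℕ} {e : ℕ → α} {v : α}
    {r : ℕ} (hr : r.Prime) (h : r ∣ part d B e v) : r ∈ good d B ∧ e r = v := by
  unfold part at h
  obtain ⟨r', hr', hdvd⟩ := (Nat.Prime.prime hr).exists_mem_finset_dvd h
  rw [Finset.mem_filter] at hr'
  have h2 : r = r' := (Nat.prime_dvd_prime_iff_eq hr (prime_of_good hr'.1)).1 hdvd
  rw [h2]
  exact hr'

/-- the data attached to one `d` -/
private theorem per_d (n : ℕ) (a : Fin n → Fin 3 → ℤ) (B : ℕ)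
    (S : (Fin n → Option (Fin 3)) → ℕ → Prop) (d : ℤ) (τ : Fin n → ℕ → Option (Fin 3))
    (u : Fin n → Option (Fin 3) → ℤ)
    (hS : ∀ r ∈ good d B, ¬ S (fun i => τ i r) r)
    (hj : ∀ i, ∀ r ∈ good d B, ∀ t t', t ≠ t' → t ≠ τ i r → t' ≠ τ i r →
      jacobiSym (u i t * u i t' * lin (a i) t (rep (a i) (τ i r)).1 (rep (a i) (τ i r)).2 *
        lin (a i) t' (rep (a i) (τ i r)).1 (rep (a i) (τ i r)).2 *
          (part d B (τ i) t : ℤ) * (part d B (τ i) t' : ℤ)) r = 1) :
    ∃ D : (Fin n × Bool → Bool) → ℕ, ∏ e, D e = ∏ r ∈ good d B, r ∧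
      ∀ e, ∀ r : ℕ, r.Prime → r ∣ D e → ¬ S (Count_dec e) r ∧
        ∀ j, jacobiSym (∏ e' ∈ Finset.univ.filter (fun e' : Fin n × Bool → Bool => e' j ≠ e j),
          (D e' : ℤ)) r = Count_kap a u e j r ∧ Count_kap a u e j r ≠ 0 := by
  classical
  let en : ℕ → Fin n × Bool → Bool := fun r j => code (τ j.1 r) j.2
  have hdec : ∀ r, Count_dec (en r) = fun i => τ i r := by
    intro r
    funext i
    exact decode_code _
  refine ⟨fun v => part d B en v, ?_, ?_⟩
  · exact Finset.prod_fiberwise (good d B) en (fun r => r)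
  · intro v r hr hrD
    obtain ⟨hg, hv⟩ := mem_of_dvd_part hr hrD
    subst hv
    refine ⟨?_, ?_⟩
    · rw [hdec]
      exact hS r hg
    · rintro ⟨i, b⟩
      -- the product
      have hprod : ∏ e' ∈ Finset.univ.filter
          (fun e' : Fin n × Bool → Bool => e' (i, b) ≠ en r (i, b)), part d B en e' =
          part d B (τ i) (Count_o1 (τ i r) b) * part d B (τ i) (Count_o2 (τ i r) b) := by
        have h1 : ∏ e' ∈ Finset.univ.filter
            (fun e' : Fin n × Bool → Bool => e' (i, b) ≠ en r (i, b)), part d B en e' =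
            ∏ x ∈ (good d B).filter (fun x => en x (i, b) ≠ en r (i, b)), x := by
          rw [← Finset.prod_fiberwise_of_maps_to
            (s := (good d B).filter (fun x => en x (i, b) ≠ en r (i, b)))
            (t := Finset.univ.filter
              (fun e' : Fin n × Bool → Bool => e' (i, b) ≠ en r (i, b))) (g := en)
            (fun x hx => by
              rw [Finset.mem_filter] at hx ⊢
              exact ⟨Finset.mem_univ _, hx.2⟩)]
          refine Finset.prod_congr rfl ?_
          intro e' he'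
          rw [Finset.mem_filter] at he'
          unfold part
          refine Finset.prod_congr ?_ (fun _ _ => rfl)
          ext x
          simp only [Finset.mem_filter]
          constructor
          · rintro ⟨h2, h3⟩
            exact ⟨⟨h2, by rw [h3]; exact he'.2⟩, h3⟩
          · rintro ⟨⟨h2, -⟩, h3⟩
            exact ⟨h2, h3⟩
        rw [h1]
        have h2 : (good d B).filter (fun x => en x (i, b) ≠ en r (i, b)) =
            (good d B).filter (fun x => τ i x = Count_o1 (τ i r) b) ∪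
              (good d B).filter (fun x => τ i x = Count_o2 (τ i r) b) := by
          rw [← Finset.filter_or]
          refine Finset.filter_congr ?_
          intro x _
          exact oth_iff (τ i r) b (τ i x)
        rw [h2, Finset.prod_union]
        · rfl
        · rw [Finset.disjoint_filter]
          intro x _ h3 h4
          exact (oth_ne (τ i r) b).1 (h3.symm.trans h4)
      have hcast : ∏ e' ∈ Finset.univ.filter
          (fun e' : Fin n × Bool → Bool => e' (i, b) ≠ en r (i, b)), (part d B en e' : ℤ) =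
          (part d B (τ i) (Count_o1 (τ i r) b) : ℤ) * (part d B (τ i) (Count_o2 (τ i r) b) : ℤ) := by
        rw [← Nat.cast_prod, hprod]
        push_cast
        rfl
      have hne := oth_ne (τ i r) b
      have hJ := hj i r hg (Count_o1 (τ i r) b) (Count_o2 (τ i r) b) hne.1 hne.2.1 hne.2.2
      have hkap : Count_kap a u (en r) (i, b) r =
          jacobiSym (u i (Count_o1 (τ i r) b) * u i (Count_o2 (τ i r) b) *
            lin (a i) (Count_o1 (τ i r) b) (rep (a i) (τ i r)).1 (rep (a i) (τ i r)).2 *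
            lin (a i) (Count_o2 (τ i r) b) (rep (a i) (τ i r)).1 (rep (a i) (τ i r)).2) r := by
        unfold Count_kap
        rw [hdec]
      rw [mul_assoc (u i (Count_o1 (τ i r) b) * u i (Count_o2 (τ i r) b) * _ * _),
        jacobiSym.mul_left, ← hkap, ← hcast] at hJ
      have hJ' := Int.eq_one_or_neg_one_of_mul_eq_one' hJ
      show jacobiSym (∏ e' ∈ Finset.univ.filter
          (fun e' : Fin n × Bool → Bool => e' (i, b) ≠ en r (i, b)), (part d B en e' : ℤ)) r =
          Count_kap a u (en r) (i, b) r ∧ Count_kap a u (en r) (i, b) r ≠ 0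
      rcases hJ' with ⟨h1, h2⟩ | ⟨h1, h2⟩
      · rw [h1, h2]
        exact ⟨rfl, one_ne_zero⟩
      · rw [h1, h2]
        exact ⟨rfl, by decide⟩

/-- The bound for the twists follows from the abstract bound (for `J = Fin n × Bool` and
`S' e = S (Count_dec e)`) with the same exponent and a constant factor depending only on `a`. No
hypothesis on `S` is needed. -/
theorem count_core (n : ℕ) (a : Fin n → Fin 3 → ℤ) (ha : ∀ i, Function.Injective (a i)) :
    ∃ K : ℕ, ∀ (S : (Fin n → Option (Fin 3)) → ℕ → Prop) (C δ : ℝ),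
      (∀ (kap : (Fin n × Bool → Bool) → Fin n × Bool → ℕ → ℤ) (N : ℕ), 2 ≤ N → ∀ A : Finset ℕ,
        (∀ m ∈ A, m ≤ N ∧ Odd m ∧ Squarefree m ∧ ∃ D : (Fin n × Bool → Bool) → ℕ, ∏ e, D e = m ∧
          ∀ e, ∀ r : ℕ, r.Prime → r ∣ D e → ¬ S (Count_dec e) r ∧
            ∀ j, jacobiSym (∏ e' ∈ Finset.univ.filter
              (fun e' : Fin n × Bool → Bool => e' j ≠ e j), (D e' : ℤ)) r
              = kap e j r ∧ kap e j r ≠ 0) →
        (A.card : ℝ) ≤ C * N * (Real.log N) ^ (-δ)) →
      ∀ N : ℕ, 2 ≤ N → ∀ A : Finset ℤ,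
        (∀ d ∈ A, Squarefree d ∧ |d| ≤ N ∧ ∃ p q w : Fin n → ℤ,
          (∀ i, IsCoprime (p i) (q i) ∧ d * w i ^ 2 = quartic (a i) (p i) (q i)) ∧
          ∀ r : ℕ, r.Prime → (r : ℤ) ∣ d → ∀ ε : Fin n → Option (Fin 3),
            (∀ i, (r : ℤ) ∣ lin (a i) (ε i) (p i) (q i)) → ¬ S ε r) →
        (A.card : ℝ) ≤ K * C * N * (Real.log N) ^ (-δ) := by
  classical
  -- the bad primes
  set B : ℕ := 2 * ∏ i, ((a i 0 - a i 1) * (a i 1 - a i 2) * (a i 2 - a i 0)).natAbs with hBdef
  have hdiff : ∀ i, ∀ j k, j ≠ k → a i j - a i k ≠ 0 := by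
    intro i j k hjk h
    exact hjk (ha i (sub_eq_zero.1 h))
  have hB0 : B ≠ 0 := by
    rw [hBdef]
    refine mul_ne_zero two_ne_zero (Finset.prod_ne_zero_iff.2 fun i _ => ?_)
    rw [Int.natAbs_ne_zero]
    exact mul_ne_zero (mul_ne_zero (hdiff i 0 1 (by decide)) (hdiff i 1 2 (by decide)))
      (hdiff i 2 0 (by decide))
  have h2 : 2 ∣ B := Dvd.intro _ rfl
  have hBi : ∀ i, ((a i 0 - a i 1) * (a i 1 - a i 2) * (a i 2 - a i 0)) ∣ (B : ℤ) := by
    intro i
    rw [← Int.natAbs_dvd]
    exact_mod_cast (Finset.dvd_prod_of_mem (fun i =>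
      ((a i 0 - a i 1) * (a i 1 - a i 2) * (a i 2 - a i 0)).natAbs) (Finset.mem_univ i)).trans
        (Dvd.intro_left _ rfl)
  have hB : ∀ i, ∀ j k, j ≠ k → (a i j - a i k) ∣ (B : ℤ) := by
    intro i j k hjk
    refine Dvd.dvd.trans ?_ (hBi i)
    have e01 : (a i 0 - a i 1) ∣ (a i 0 - a i 1) * (a i 1 - a i 2) * (a i 2 - a i 0) :=
      ⟨(a i 1 - a i 2) * (a i 2 - a i 0), by ring⟩
    have e12 : (a i 1 - a i 2) ∣ (a i 0 - a i 1) * (a i 1 - a i 2) * (a i 2 - a i 0) :=
      ⟨(a i 0 - a i 1) * (a i 2 - a i 0), by ring⟩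
    have e20 : (a i 2 - a i 0) ∣ (a i 0 - a i 1) * (a i 1 - a i 2) * (a i 2 - a i 0) :=
      ⟨(a i 0 - a i 1) * (a i 1 - a i 2), by ring⟩
    have e10 : (a i 1 - a i 0) ∣ (a i 0 - a i 1) * (a i 1 - a i 2) * (a i 2 - a i 0) := by
      rw [← neg_sub, neg_dvd]
      exact e01
    have e21 : (a i 2 - a i 1) ∣ (a i 0 - a i 1) * (a i 1 - a i 2) * (a i 2 - a i 0) := by
      rw [← neg_sub, neg_dvd]
      exact e12
    have e02 : (a i 0 - a i 2) ∣ (a i 0 - a i 1) * (a i 1 - a i 2) * (a i 2 - a i 0) := by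
      rw [← neg_sub, neg_dvd]
      exact e20
    fin_cases j <;> fin_cases k
    · exact absurd rfl hjk
    · exact e01
    · exact e02
    · exact e10
    · exact absurd rfl hjk
    · exact e12
    · exact e20
    · exact e21
    · exact absurd rfl hjk
  choose U hU1 hU2 using fun i => descent_one (a i) (ha i) B hB0 h2 (hB i)
  let UU : Finset (Fin n → Option (Fin 3) → ℤ) := Fintype.piFinset U
  refine ⟨2 * 2 ^ B.primeFactors.card * UU.card, ?_⟩
  intro S C δ hC N hN A hA
  -- the data of `d`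
  have hdata : ∀ d : ℤ, ∃ u : Fin n → Option (Fin 3) → ℤ, d ∈ A → u ∈ UU ∧
      ∃ D : (Fin n × Bool → Bool) → ℕ, ∏ e, D e = ∏ r ∈ good d B, r ∧
      ∀ e, ∀ r : ℕ, r.Prime → r ∣ D e → ¬ S (Count_dec e) r ∧
        ∀ j, jacobiSym (∏ e' ∈ Finset.univ.filter (fun e' : Fin n × Bool → Bool => e' j ≠ e j),
          (D e' : ℤ)) r = Count_kap a u e j r ∧ Count_kap a u e j r ≠ 0 := by
    intro d
    by_cases hd : d ∈ A
    · obtain ⟨hsq, hdN, p, q, w, hpq, hr⟩ := hA d hd
      choose u hu τ hτ using fun i => hU2 i d (p i) (q i) (w i) hsq (hpq i).1 (hpq i).2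
      refine ⟨u, fun _ => ⟨Fintype.mem_piFinset.2 hu, ?_⟩⟩
      refine per_d n a B S d τ u ?_ ?_
      · intro r hrg
        exact hr r (prime_of_good hrg) (dvd_of_good hrg) _ (fun i => (hτ i r hrg).1)
      · intro i r hrg
        exact (hτ i r hrg).2
    · exact ⟨fun _ _ => 0, fun h => absurd h hd⟩
  choose ud hud using hdata
  let m : ℤ → ℕ := fun d => ∏ r ∈ good d B, r
  let T : ℤ → Finset ℕ := fun d => d.natAbs.primeFactors.filter (fun r => r ∣ B)
  have hTm : ∀ d ∈ A, (∏ r ∈ T d, r) * m d = d.natAbs := by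
    intro d hd
    have h3 : Squarefree d.natAbs := Int.squarefree_natAbs.2 (hA d hd).1
    rw [← Nat.prod_primeFactors_of_squarefree h3]
    show (∏ r ∈ d.natAbs.primeFactors.filter (fun r => r ∣ B), r) *
      ∏ r ∈ d.natAbs.primeFactors.filter (fun r => ¬ r ∣ B), r = _
    rw [Finset.prod_filter_mul_prod_filter_not]
  have hmdvd : ∀ d ∈ A, m d ∣ d.natAbs := fun d hd => ⟨_, by rw [mul_comm]; exact (hTm d hd).symm⟩
  have hd0 : ∀ d ∈ A, d.natAbs ≠ 0 := fun d hd => by
    rw [Int.natAbs_ne_zero]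
    exact (hA d hd).1.ne_zero
  -- the sets of the `m d` for fixed `u`
  let Au : (Fin n → Option (Fin 3) → ℤ) → Finset ℕ := fun u => (A.filter (fun d => ud d = u)).image m
  have hAu : ∀ u, ((Au u).card : ℝ) ≤ C * N * (Real.log N) ^ (-δ) := by
    intro u
    refine hC (Count_kap a u) N hN (Au u) ?_
    intro mm hmm
    obtain ⟨d, hd, rfl⟩ := Finset.mem_image.1 hmm
    rw [Finset.mem_filter] at hd
    obtain ⟨hd, rfl⟩ := hd
    refine ⟨?_, ?_, ?_, (hud d hd).2⟩
    · refine (Nat.le_of_dvd (Nat.pos_of_ne_zero (hd0 d hd)) (hmdvd d hd)).trans ?_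
      have h3 := (hA d hd).2.1
      rw [Int.abs_eq_natAbs] at h3
      exact_mod_cast h3
    · show Odd (∏ r ∈ good d B, r)
      refine Finset.prod_induction _ Odd (fun _ _ h3 h4 => h3.mul h4) odd_one ?_
      intro r hr
      rcases (prime_of_good hr).eq_two_or_odd' with h3 | h3
      · subst h3
        exact absurd h2 (Finset.mem_filter.1 hr).2
      · exact h3
    · exact Squarefree.squarefree_of_dvd (hmdvd d hd) (Int.squarefree_natAbs.2 (hA d hd).1)
  -- the injection
  let X : Finset ((Bool × Finset ℕ) × (Σ _ : Fin n → Option (Fin 3) → ℤ, ℕ)) :=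
    ((Finset.univ : Finset Bool) ×ˢ B.primeFactors.powerset) ×ˢ (UU.sigma fun u => Au u)
  have hcard : A.card ≤ X.card := by
    refine Finset.card_le_card_of_injOn
      (fun d => ((decide (0 ≤ d), T d), ⟨ud d, m d⟩)) ?_ ?_
    · intro d hd
      have hd' : d ∈ A := hd
      refine Finset.mem_coe.2 (Finset.mem_product.2 ⟨Finset.mem_product.2 ⟨Finset.mem_univ _, ?_⟩,
        Finset.mem_sigma.2 ⟨(hud d hd').1, ?_⟩⟩)
      · show T d ∈ B.primeFactors.powerset
        rw [Finset.mem_powerset]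
        intro r hr
        rw [Finset.mem_filter] at hr
        exact Nat.mem_primeFactors.2 ⟨Nat.prime_of_mem_primeFactors hr.1, hr.2, hB0⟩
      · exact Finset.mem_image_of_mem _ (Finset.mem_filter.2 ⟨hd', rfl⟩)
    · intro d hd d' hd' h
      have hd1 : d ∈ A := hd
      have hd1' : d' ∈ A := hd'
      simp only [Prod.mk.injEq, Sigma.mk.injEq, heq_eq_eq] at h
      obtain ⟨⟨h3, h4⟩, -, h5⟩ := h
      have h6 : d.natAbs = d'.natAbs := by
        rw [← hTm d hd1, ← hTm d' hd1', h4, h5]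
      rcases Int.natAbs_eq_natAbs_iff.1 h6 with h7 | h7
      · exact h7
      · have h8 : (0 ≤ d) ↔ (0 ≤ d') := decide_eq_decide.1 h3
        have h9 := hd0 d hd1
        omega
  have hXcard : (X.card : ℝ) = 2 * 2 ^ B.primeFactors.card * ∑ u ∈ UU, ((Au u).card : ℝ) := by
    have h3 : X.card = (2 * 2 ^ B.primeFactors.card) * ∑ u ∈ UU, (Au u).card := by
      show (((Finset.univ : Finset Bool) ×ˢ B.primeFactors.powerset) ×ˢ
        (UU.sigma fun u => Au u)).card = _
      rw [Finset.card_product, Finset.card_product, Finset.card_sigma, Finset.card_powerset]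
      rfl
    rw [h3]
    push_cast
    ring
  calc (A.card : ℝ) ≤ (X.card : ℝ) := by exact_mod_cast hcard
    _ = 2 * 2 ^ B.primeFactors.card * ∑ u ∈ UU, ((Au u).card : ℝ) := hXcard
    _ ≤ 2 * 2 ^ B.primeFactors.card * ∑ _u ∈ UU, (C * N * (Real.log N) ^ (-δ)) := by
        refine mul_le_mul_of_nonneg_left (Finset.sum_le_sum fun u _ => hAu u) (by positivity)
    _ = ((2 * 2 ^ B.primeFactors.card * UU.card : ℕ) : ℝ) * C * N * (Real.log N) ^ (-δ) := by
        rw [Finset.sum_const, nsmul_eq_mul]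
        push_cast
        ring

end Pool.Agent.Helper43.TW
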